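import Mathlib

/-! Bounds for polynomials of bounded degree on boxes: values and differences. -/

set_option autoImplicit false

namespace Pool.Agent.Helper81.MI

open Finset MvPolynomial

theorem pow_sub_le (x y R δ : ℝ) (n : ℕ) (hR : 1 ≤ R) (hx : |x| ≤ R) (hy : |y| ≤ R) (hd : |x - y| ≤ δ) :
    |x ^ n - y ^ n| ≤ n * R ^ n * δ := by
  have hδ : 0 ≤ δ := (abs_nonneg _).trans hd
  have hR0 : 0 ≤ R := zero_le_one.trans hR
  induction n with
  | zero => simp
  | succ n ih =>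
    have e : x ^ (n + 1) - y ^ (n + 1) = x ^ n * (x - y) + (x ^ n - y ^ n) * y := by ring
    rw [e]
    have h1 : |x ^ n| ≤ R ^ n := by rw [abs_pow]; exact pow_le_pow_left₀ (abs_nonneg _) hx n
    have h2 : R ^ n ≤ R ^ (n + 1) := pow_le_pow_right₀ hR (Nat.le_succ n)
    calc |x ^ n * (x - y) + (x ^ n - y ^ n) * y| ≤ |x ^ n| * |x - y| + |x ^ n - y ^ n| * |y| := by
          rw [← abs_mul, ← abs_mul]; exact abs_add_le _ _
      _ ≤ R ^ (n + 1) * δ + (n * R ^ n * δ) * R := by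
          apply add_le_add
          · exact mul_le_mul (h1.trans h2) hd (abs_nonneg _) (by positivity)
          · exact mul_le_mul ih hy (abs_nonneg _) (by positivity)
      _ = ((n + 1 : ℕ) : ℝ) * R ^ (n + 1) * δ := by push_cast; ring

theorem prod_pow_le {M : ℕ} (s : Fin M → ℕ) (x : Fin M → ℝ) (R : ℝ) (hR : 1 ≤ R) (hx : ∀ i, |x i| ≤ R)
    (T : Finset (Fin M)) : |∏ i ∈ T, x i ^ s i| ≤ R ^ (∑ i ∈ T, s i) := by
  have hR0 : 0 ≤ R := zero_le_one.trans hR
  rw [Finset.abs_prod, ← Finset.prod_pow_eq_pow_sum]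
  apply Finset.prod_le_prod
  · intro i _; exact abs_nonneg _
  · intro i _; rw [abs_pow]; exact pow_le_pow_left₀ (abs_nonneg _) (hx i) _

theorem prod_pow_sub_le {M : ℕ} (s : Fin M → ℕ) (x y : Fin M → ℝ) (R δ : ℝ) (hR : 1 ≤ R) (hδ : 0 ≤ δ)
    (hx : ∀ i, |x i| ≤ R) (hy : ∀ i, |y i| ≤ R) (hd : ∀ i, |x i - y i| ≤ δ) (T : Finset (Fin M)) :
    |∏ i ∈ T, x i ^ s i - ∏ i ∈ T, y i ^ s i| ≤ (∑ i ∈ T, s i : ℕ) * R ^ (∑ i ∈ T, s i) * δ := by
  have hR0 : 0 ≤ R := zero_le_one.trans hR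
  induction T using Finset.induction_on with
  | empty => simp
  | insert a T ha ih =>
    rw [Finset.prod_insert ha, Finset.prod_insert ha, Finset.sum_insert ha]
    have e : x a ^ s a * ∏ i ∈ T, x i ^ s i - y a ^ s a * ∏ i ∈ T, y i ^ s i =
        x a ^ s a * (∏ i ∈ T, x i ^ s i - ∏ i ∈ T, y i ^ s i) + (x a ^ s a - y a ^ s a) * ∏ i ∈ T, y i ^ s i := by
      ring
    rw [e]
    have h1 : |x a ^ s a| ≤ R ^ s a := by rw [abs_pow]; exact pow_le_pow_left₀ (abs_nonneg _) (hx a) _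
    have h2 := pow_sub_le (x a) (y a) R δ (s a) hR (hx a) (hy a) (hd a)
    have h3 := prod_pow_le s y R hR hy T
    calc |x a ^ s a * (∏ i ∈ T, x i ^ s i - ∏ i ∈ T, y i ^ s i) + (x a ^ s a - y a ^ s a) * ∏ i ∈ T, y i ^ s i|
        ≤ |x a ^ s a| * |∏ i ∈ T, x i ^ s i - ∏ i ∈ T, y i ^ s i| + |x a ^ s a - y a ^ s a| * |∏ i ∈ T, y i ^ s i| := by
          rw [← abs_mul, ← abs_mul]; exact abs_add_le _ _
      _ ≤ R ^ s a * ((∑ i ∈ T, s i : ℕ) * R ^ (∑ i ∈ T, s i) * δ) + (s a * R ^ s a * δ) * R ^ (∑ i ∈ T, s i) := by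
          apply add_le_add
          · exact mul_le_mul h1 ih (abs_nonneg _) (by positivity)
          · exact mul_le_mul h2 h3 (abs_nonneg _) (by positivity)
      _ = ((s a + ∑ i ∈ T, s i : ℕ) : ℝ) * R ^ (s a + ∑ i ∈ T, s i) * δ := by
          rw [pow_add]; push_cast; ring

/-- number of monomials -/
theorem card_support_le {M p : ℕ} (P : MvPolynomial (Fin M) ℝ) (hP : P.totalDegree ≤ p) :
    P.support.card ≤ (p + 1) ^ M := by
  classical
  have h1 : Set.InjOn (fun (s : Fin M →₀ ℕ) (i : Fin M) => (Fin.ofNat (p + 1) (s i) : Fin (p + 1)))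
      (P.support : Set (Fin M →₀ ℕ)) := by
    intro s hs t ht hst
    ext i
    have h2 := congrFun hst i
    have b : ∀ s ∈ P.support, s i < p + 1 := by
      intro s hs
      have h3 := MvPolynomial.le_totalDegree hs
      have h4 : s i ≤ s.sum fun _ e => e := by
        by_cases hi : i ∈ s.support
        · exact Finset.single_le_sum (f := fun i => s i) (fun _ _ => Nat.zero_le _) hi
        · rw [Finsupp.notMem_support_iff.mp hi]; exact Nat.zero_le _
      omega
    have h5 := congrArg Fin.val h2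
    simp only [Fin.ofNat_eq_cast, Fin.val_natCast] at h5
    rwa [Nat.mod_eq_of_lt (b s hs), Nat.mod_eq_of_lt (b t ht)] at h5
  have h2 := Finset.card_le_card_of_injOn (t := (Finset.univ : Finset (Fin M → Fin (p + 1))))
    _ (fun s _ => Finset.mem_univ _) h1
  rwa [Finset.card_univ, Fintype.card_fun, Fintype.card_fin, Fintype.card_fin] at h2

theorem sum_le_deg {M p : ℕ} {P : MvPolynomial (Fin M) ℝ} (hP : P.totalDegree ≤ p) {s : Fin M →₀ ℕ}
    (hs : s ∈ P.support) : ∑ i, s i ≤ p := by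
  have h3 := MvPolynomial.le_totalDegree hs
  rw [Finsupp.sum_fintype _ _ (fun _ => rfl)] at h3
  exact h3.trans hP

/-- values -/
theorem eval_le {M p : ℕ} (P : MvPolynomial (Fin M) ℝ) (hP : P.totalDegree ≤ p) (x : Fin M → ℝ) (R K : ℝ)
    (hR : 1 ≤ R) (hK : 0 ≤ K) (hx : ∀ i, |x i| ≤ R) (hc : ∀ s, |P.coeff s| ≤ K) :
    |eval x P| ≤ (p + 1) ^ M * K * R ^ p := by
  have hR0 : 0 ≤ R := zero_le_one.trans hR
  rw [MvPolynomial.eval_eq]
  calc |∑ s ∈ P.support, P.coeff s * ∏ i ∈ s.support, x i ^ s i|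
      ≤ ∑ s ∈ P.support, |P.coeff s * ∏ i ∈ s.support, x i ^ s i| := Finset.abs_sum_le_sum_abs _ _
    _ ≤ ∑ _s ∈ P.support, K * R ^ p := by
        apply Finset.sum_le_sum
        intro s hs
        rw [abs_mul]
        apply mul_le_mul (hc s) _ (abs_nonneg _) hK
        refine (prod_pow_le (fun i => s i) x R hR hx s.support).trans (pow_le_pow_right₀ hR ?_)
        exact (Finset.sum_le_sum_of_subset (Finset.subset_univ _)).trans (sum_le_deg hP hs)
    _ = P.support.card * (K * R ^ p) := by rw [Finset.sum_const, nsmul_eq_mul]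
    _ ≤ ((p + 1) ^ M : ℝ) * (K * R ^ p) := by
        apply mul_le_mul_of_nonneg_right _ (by positivity)
        exact_mod_cast card_support_le P hP
    _ = _ := by ring

/-- differences -/
theorem eval_sub_le {M p : ℕ} (P : MvPolynomial (Fin M) ℝ) (hP : P.totalDegree ≤ p) (x y : Fin M → ℝ)
    (R K δ : ℝ) (hR : 1 ≤ R) (hK : 0 ≤ K) (hδ : 0 ≤ δ) (hx : ∀ i, |x i| ≤ R) (hy : ∀ i, |y i| ≤ R)
    (hd : ∀ i, |x i - y i| ≤ δ) (hc : ∀ s, |P.coeff s| ≤ K) :
    |eval x P - eval y P| ≤ (p + 1) ^ M * K * (p * R ^ p) * δ := by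
  have hR0 : 0 ≤ R := zero_le_one.trans hR
  rw [MvPolynomial.eval_eq, MvPolynomial.eval_eq, ← Finset.sum_sub_distrib]
  calc |∑ s ∈ P.support, (P.coeff s * ∏ i ∈ s.support, x i ^ s i - P.coeff s * ∏ i ∈ s.support, y i ^ s i)|
      ≤ ∑ s ∈ P.support, |P.coeff s * ∏ i ∈ s.support, x i ^ s i - P.coeff s * ∏ i ∈ s.support, y i ^ s i| :=
        Finset.abs_sum_le_sum_abs _ _
    _ ≤ ∑ _s ∈ P.support, K * (p * R ^ p * δ) := by
        apply Finset.sum_le_sum
        intro s hs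
        rw [← mul_sub, abs_mul]
        apply mul_le_mul (hc s) _ (abs_nonneg _) hK
        have h1 : ∑ i ∈ s.support, s i ≤ p :=
          (Finset.sum_le_sum_of_subset (Finset.subset_univ _)).trans (sum_le_deg hP hs)
        refine (prod_pow_sub_le (fun i => s i) x y R δ hR hδ hx hy hd s.support).trans ?_
        apply mul_le_mul_of_nonneg_right _ hδ
        apply mul_le_mul _ (pow_le_pow_right₀ hR h1) (by positivity) (by positivity)
        exact_mod_cast h1
    _ = P.support.card * (K * (p * R ^ p * δ)) := by rw [Finset.sum_const, nsmul_eq_mul]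
    _ ≤ ((p + 1) ^ M : ℝ) * (K * (p * R ^ p * δ)) := by
        apply mul_le_mul_of_nonneg_right _ (by positivity)
        exact_mod_cast card_support_le P hP
    _ = _ := by ring

/-- degree of a composition -/
theorem totalDegree_bind {M N D p : ℕ} (G : MvPolynomial (Fin N) ℝ) (hG : G.totalDegree ≤ D)
    (P : Fin N → MvPolynomial (Fin M) ℝ) (hP : ∀ i, (P i).totalDegree ≤ p) :
    (bind₁ P G).totalDegree ≤ D * p := by
  classical
  rw [G.as_sum, map_sum]
  apply MvPolynomial.totalDegree_finsetSum_le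
  intro s hs
  rw [bind₁_monomial]
  refine (totalDegree_mul _ _).trans ?_
  rw [totalDegree_C, zero_add]
  refine (totalDegree_finsetProd _ _).trans ?_
  calc ∑ i ∈ s.support, (P i ^ s i).totalDegree ≤ ∑ i ∈ s.support, s i * p := by
        apply Finset.sum_le_sum
        intro i _
        exact (totalDegree_pow _ _).trans (Nat.mul_le_mul_left _ (hP i))
    _ = (∑ i ∈ s.support, s i) * p := by rw [Finset.sum_mul]
    _ ≤ D * p := Nat.mul_le_mul_right _
        ((Finset.sum_le_sum_of_subset (Finset.subset_univ _)).trans (sum_le_deg hG hs))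

/-- evaluation of a composition -/
theorem eval_bind {M N : ℕ} (G : MvPolynomial (Fin N) ℝ) (P : Fin N → MvPolynomial (Fin M) ℝ) (x : Fin M → ℝ) :
    eval x (bind₁ P G) = eval (fun i => eval x (P i)) G := by
  rw [MvPolynomial.eval, MvPolynomial.eval₂Hom_bind₁]
  rfl

end Pool.Agent.Helper81.MI
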