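import Pool.Agent.Helper22.MI.Stmts1

set_option autoImplicit false

/-!
# MI, module UNS: a union of spectrahedra
-/

namespace Pool.Agent.Helper22.MI

open Finset Matrix Pool.Agent.Helper68.SDP Pool.Agent.Helper68.LP

/-- the quadratic form -/
theorem uns_quad {κ : Type} [Fintype κ] (M : Matrix κ κ ℝ) (x : κ → ℝ) :
    star x ⬝ᵥ (M *ᵥ x) = ∑ p, ∑ q, x p * M p q * x q := by
  simp only [dotProduct, mulVec, Finset.mul_sum, star_trivial, mul_assoc]

/-- entries of a block -/
def unsEnt {r : ℕ} (X : Matrix (Fin r) (Fin r) ℝ) (t : ℝ) : Option (Fin r) → Option (Fin r) → ℝ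
  | some a, some b => X a b
  | none, none => t
  | some _, none => 0
  | none, some _ => 0

/-- the block `i` -/
def unsBlk {N r : ℕ} (i : Fin N) (X : Matrix (Fin r) (Fin r) ℝ) (t : ℝ) :
    Matrix (Fin N × Option (Fin r)) (Fin N × Option (Fin r)) ℝ :=
  fun p q => if p.1 = i then (if q.1 = i then unsEnt X t p.2 q.2 else 0) else 0

theorem uns_blk_herm {N r : ℕ} (i : Fin N) (X : Matrix (Fin r) (Fin r) ℝ) (t : ℝ)
    (hX : X.IsHermitian) : (unsBlk i X t).IsHermitian := by
  ext ⟨p1, p2⟩ ⟨q1, q2⟩
  simp only [Matrix.conjTranspose_apply, star_trivial, unsBlk]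
  by_cases h1 : p1 = i
  · by_cases h2 : q1 = i
    · simp only [h1, h2, if_true]
      rcases p2 with _ | a <;> rcases q2 with _ | b <;> simp only [unsEnt]
      have := hX.apply a b
      simpa using this
    · simp [h1, h2]
  · by_cases h2 : q1 = i
    · simp [h1, h2]
    · simp [h1, h2]

theorem uns_blk_quad {N r : ℕ} (i : Fin N) (X : Matrix (Fin r) (Fin r) ℝ) (t : ℝ)
    (x : Fin N × Option (Fin r) → ℝ) :
    ∑ p, ∑ q, x p * unsBlk i X t p q * x q =
      (∑ a, ∑ b, x (i, some a) * X a b * x (i, some b)) + t * x (i, none) ^ 2 := by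
  simp only [Fintype.sum_prod_type, unsBlk]
  rw [Finset.sum_eq_single i]
  · rw [Fintype.sum_option]
    have h1 : ∀ p : Option (Fin r), (∑ q1, ∑ q2, x (i, p) *
        (if i = i then (if q1 = i then unsEnt X t p q2 else 0) else 0) * x (q1, q2)) =
        ∑ q2, x (i, p) * unsEnt X t p q2 * x (i, q2) := by
      intro p
      rw [Finset.sum_eq_single i]
      · simp
      · intro b _ hb
        simp [hb]
      · simp
    rw [h1, Fintype.sum_option]
    simp only [Fintype.sum_option, unsEnt]
    simp
    ring
  · intro b _ hb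
    simp [hb]
  · simp

/-- the matrices of the union -/
def unsC {N d r : ℕ} (B₀ : Fin N → Matrix (Fin r) (Fin r) ℝ)
    (B : (i : Fin N) → Fin d → Matrix (Fin r) (Fin r) ℝ) :
    Fin N × Option (Fin d) → Matrix (Fin N × Option (Fin r)) (Fin N × Option (Fin r)) ℝ
  | (i, none) => unsBlk i (B₀ i) 1
  | (i, some j) => unsBlk i (B i j) 0

theorem uns_psd {N d r : ℕ} (B₀ : Fin N → Matrix (Fin r) (Fin r) ℝ)
    (B : (i : Fin N) → Fin d → Matrix (Fin r) (Fin r) ℝ) (hB₀ : ∀ i, (B₀ i).IsHermitian)
    (hB : ∀ i j, (B i j).IsHermitian) (Y : Fin N × Option (Fin d) → ℝ) :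
    (∑ v, Y v • unsC B₀ B v).PosSemidef ↔
      ∀ i, (Y (i, none) • B₀ i + ∑ j, Y (i, some j) • B i j).PosSemidef ∧ 0 ≤ Y (i, none) := by
  have hq : ∀ x : Fin N × Option (Fin r) → ℝ,
      star x ⬝ᵥ ((∑ v, Y v • unsC B₀ B v) *ᵥ x) =
      ∑ i, (star (fun a => x (i, some a)) ⬝ᵥ
        ((Y (i, none) • B₀ i + ∑ j, Y (i, some j) • B i j) *ᵥ (fun a => x (i, some a))) +
        Y (i, none) * x (i, none) ^ 2) := by
    intro x
    have h1 : star x ⬝ᵥ ((∑ v, Y v • unsC B₀ B v) *ᵥ x) =
        ∑ v, Y v * ∑ p, ∑ q, x p * unsC B₀ B v p q * x q := by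
      rw [Matrix.sum_mulVec, dotProduct_sum]
      refine Finset.sum_congr rfl fun v _ => ?_
      rw [smul_mulVec, dotProduct_smul, uns_quad, smul_eq_mul]
    rw [h1, Fintype.sum_prod_type]
    refine Finset.sum_congr rfl fun i _ => ?_
    rw [Fintype.sum_option]
    simp only [unsC, uns_blk_quad]
    rw [Matrix.add_mulVec, dotProduct_add, smul_mulVec, dotProduct_smul, Matrix.sum_mulVec,
      dotProduct_sum, uns_quad, smul_eq_mul]
    have h2 : ∀ j, star (fun a => x (i, some a)) ⬝ᵥ
        ((Y (i, some j) • B i j) *ᵥ (fun a => x (i, some a))) =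
        Y (i, some j) * ∑ a, ∑ b, x (i, some a) * B i j a b * x (i, some b) := by
      intro j
      rw [smul_mulVec, dotProduct_smul, uns_quad, smul_eq_mul]
    simp only [h2]
    simp only [zero_mul, add_zero]
    ring
  have hH : ∀ v, (Y v • unsC B₀ B v).IsHermitian := by
    rintro ⟨i, _ | j⟩
    · exact (uns_blk_herm i _ _ (hB₀ i)).smul (star_trivial _)
    · exact (uns_blk_herm i _ _ (hB i j)).smul (star_trivial _)
  have hHs : (∑ v, Y v • unsC B₀ B v).IsHermitian := by
    have : ∀ s : Finset (Fin N × Option (Fin d)), (∑ v ∈ s, Y v • unsC B₀ B v).IsHermitian := by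
      intro s
      induction s using Finset.induction_on with
      | empty => simp
      | insert a s ha ih => rw [Finset.sum_insert ha]; exact (hH a).add ih
    exact this _
  have hHi : ∀ i, (Y (i, none) • B₀ i + ∑ j, Y (i, some j) • B i j).IsHermitian := by
    intro i
    refine ((hB₀ i).smul (star_trivial _)).add ?_
    have : ∀ s : Finset (Fin d), (∑ j ∈ s, Y (i, some j) • B i j).IsHermitian := by
      intro s
      induction s using Finset.induction_on with
      | empty => simp
      | insert a s ha ih =>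
        rw [Finset.sum_insert ha]; exact ((hB i a).smul (star_trivial _)).add ih
    exact this _
  rw [posSemidef_iff_dotProduct_mulVec]
  constructor
  · rintro ⟨-, h⟩ i
    constructor
    · rw [posSemidef_iff_dotProduct_mulVec]
      refine ⟨hHi i, fun u => ?_⟩
      have h1 := h (fun p => if p.1 = i then (match p.2 with | none => 0 | some a => u a) else 0)
      rw [hq, Finset.sum_eq_single i] at h1
      · simpa using h1
      · intro b _ hb
        simp [hb, dotProduct]
      · simp
    · have h1 := h (fun p => if p.1 = i then (match p.2 with | none => 1 | some _ => 0) else 0)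
      rw [hq, Finset.sum_eq_single i] at h1
      · simpa [dotProduct] using h1
      · intro b _ hb
        simp [hb, dotProduct]
      · simp
  · intro h
    refine ⟨hHs, fun x => ?_⟩
    rw [hq]
    refine Finset.sum_nonneg fun i _ => add_nonneg ?_ (mul_nonneg (h i).2 (sq_nonneg _))
    exact (h i).1.dotProduct_mulVec_nonneg _

/-- the equations of the union -/
def unsG {N d : ℕ} {s : Fin N → ℕ} (E : (i : Fin N) → Fin (s i) → Fin d → ℝ)
    (e : (i : Fin N) → Fin (s i) → ℝ) :
    Option (Σ i : Fin N, Fin (s i)) → Fin N × Option (Fin d) → ℝ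
  | none, (_, none) => 1
  | none, (_, some _) => 0
  | some k, (i, none) => if i = k.1 then - e k.1 k.2 else 0
  | some k, (i, some j) => if i = k.1 then E k.1 k.2 j else 0

/-- the right hand sides -/
def unsg {N : ℕ} {s : Fin N → ℕ} : Option (Σ i : Fin N, Fin (s i)) → ℝ
  | none => 1
  | some _ => 0

theorem uns_eqs {N d : ℕ} {s : Fin N → ℕ} (E : (i : Fin N) → Fin (s i) → Fin d → ℝ)
    (e : (i : Fin N) → Fin (s i) → ℝ) (Y : Fin N × Option (Fin d) → ℝ) :
    (∀ k, ∑ v, unsG E e k v * Y v = unsg k) ↔
      (∀ i k, ∑ j, E i k j * Y (i, some j) = e i k * Y (i, none)) ∧ ∑ i, Y (i, none) = 1 := by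
  have h0 : ∑ v, unsG E e none v * Y v = ∑ i, Y (i, none) := by
    rw [Fintype.sum_prod_type]
    refine Finset.sum_congr rfl fun i _ => ?_
    rw [Fintype.sum_option]
    simp [unsG]
  have h1 : ∀ i k, ∑ v, unsG E e (some ⟨i, k⟩) v * Y v =
      ∑ j, E i k j * Y (i, some j) - e i k * Y (i, none) := by
    intro i k
    rw [Fintype.sum_prod_type, Finset.sum_eq_single i]
    · rw [Fintype.sum_option]
      simp [unsG]
      ring
    · intro b _ hb
      rw [Fintype.sum_option]
      simp [unsG, hb]
    · simp
  constructor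
  · intro h
    refine ⟨fun i k => ?_, ?_⟩
    · have := h (some ⟨i, k⟩)
      rw [h1] at this
      have h2 : (unsg (some ⟨i, k⟩ : Option (Σ i : Fin N, Fin (s i)))) = 0 := rfl
      rw [h2] at this
      linarith
    · rw [← h0, h none]
      rfl
  · rintro ⟨ha, hb⟩ k
    rcases k with _ | ⟨i, k⟩
    · rw [h0, hb]
      rfl
    · rw [h1, ha]
      show _ = (0 : ℝ)
      ring

theorem st_UNS : ST_UNS := by
  intro d N n R r δ Q hsdp hne x hx hobj
  choose B₀ B s E e hB₀ hB hQ using hsdp
  choose iσ hiσ using hx
  let eV : Fin (Fintype.card (Fin N × Option (Fin d))) ≃ Fin N × Option (Fin d) :=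
    (Fintype.equivFin _).symm
  have hcard : Fintype.card (Fin N × Option (Fin r)) = N * (r + 1) := by
    simp [Fintype.card_prod]
  let eK : Fin (N * (r + 1)) ≃ Fin N × Option (Fin r) :=
    (Fintype.equivFinOfCardEq hcard).symm
  let eT : Fin (Fintype.card (Option (Σ i : Fin N, Fin (s i)))) ≃
      Option (Σ i : Fin N, Fin (s i)) := (Fintype.equivFin _).symm
  -- the union
  let Q' : Set (Fin (Fintype.card (Fin N × Option (Fin d))) → ℝ) :=
    {y | ((0 : Matrix (Fin (N * (r + 1))) (Fin (N * (r + 1))) ℝ) +
      ∑ j, y j • (unsC B₀ B (eV j)).submatrix eK eK).PosSemidef ∧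
      ∀ k, ∑ j, unsG E e (eT k) (eV j) * y j = unsg (eT k)}
  have hmem : ∀ Y : Fin N × Option (Fin d) → ℝ, (fun j => Y (eV j)) ∈ Q' ↔
      (∀ i, (Y (i, none) • B₀ i + ∑ j, Y (i, some j) • B i j).PosSemidef ∧ 0 ≤ Y (i, none)) ∧
      (∀ i k, ∑ j, E i k j * Y (i, some j) = e i k * Y (i, none)) ∧
      ∑ i, Y (i, none) = 1 := by
    intro Y
    have h1 : ((0 : Matrix (Fin (N * (r + 1))) (Fin (N * (r + 1))) ℝ) +
        ∑ j, Y (eV j) • (unsC B₀ B (eV j)).submatrix eK eK) =
        (∑ v, Y v • unsC B₀ B v).submatrix eK eK := by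
      rw [zero_add, ← Equiv.sum_comp eV (fun v => Y v • unsC B₀ B v)]
      ext a b
      simp [Matrix.sum_apply]
    have h2 : ∀ k, ∑ j, unsG E e (eT k) (eV j) * Y (eV j) =
        ∑ v, unsG E e (eT k) v * Y v := fun k =>
      Equiv.sum_comp eV (fun v => unsG E e (eT k) v * Y v)
    show (_ ∧ _) ↔ _
    simp only [h1, h2]
    rw [posSemidef_submatrix_equiv, uns_psd B₀ B hB₀ hB, ← uns_eqs E e Y]
    refine and_congr Iff.rfl ⟨fun h k => ?_, fun h k => h _⟩
    have := h (eT.symm k)
    rwa [Equiv.apply_symm_apply] at this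
  refine ⟨_, Q', ⟨0, fun j => (unsC B₀ B (eV j)).submatrix eK eK, _,
    fun k j => unsG E e (eT k) (eV j), fun k => unsg (eT k), Matrix.isHermitian_zero, ?_, rfl⟩, ?_⟩
  · intro j
    refine Matrix.IsHermitian.submatrix ?_ _
    rcases eV j with ⟨i, _ | j⟩
    · exact uns_blk_herm i _ _ (hB₀ i)
    · exact uns_blk_herm i _ _ (hB i j)
  -- the points
  let X : Equiv.Perm (Fin n) → Fin N × Option (Fin d) → ℝ := fun σ v =>
    if v.1 = iσ σ then (match v.2 with | none => 1 | some j => x σ j) else 0
  refine ⟨fun σ j => X σ (eV j), fun σ => ?_, fun P hP hPR => ?_⟩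
  · rw [hmem]
    have hxm := hiσ σ
    rw [hQ] at hxm
    refine ⟨fun i => ?_, fun i k => ?_, ?_⟩
    · by_cases hi : i = iσ σ
      · subst hi
        simp only [X, if_true, one_smul]
        exact ⟨hxm.1, zero_le_one⟩
      · simp only [X, hi, if_false, zero_smul, Finset.sum_const_zero, add_zero]
        exact ⟨Matrix.PosSemidef.zero, le_refl 0⟩
    · by_cases hi : i = iσ σ
      · subst hi
        simp only [X, if_true, mul_one]
        exact hxm.2 k
      · simp [X, hi]
    · rw [Finset.sum_eq_single (iσ σ)]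
      · simp [X]
      · intro b _ hb
        simp [X, hb]
      · simp
  -- the objective
  obtain ⟨c, c₀, h1, h2⟩ := hobj P hP hPR
  let cc : Fin N × Option (Fin d) → ℝ := fun v => match v.2 with | none => c₀ | some j => c j
  refine ⟨fun j => cc (eV j), 0, fun σ => ?_, fun y hy => ?_⟩
  · have h3 : ∑ j, cc (eV j) * X σ (eV j) = ∑ j, c j * x σ j + c₀ := by
      rw [Equiv.sum_comp eV (fun v => cc v * X σ v), Fintype.sum_prod_type,
        Finset.sum_eq_single (iσ σ)]
      · rw [Fintype.sum_option]
        simp [cc, X]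
        ring
      · intro b _ hb
        simp [X, hb]
      · simp
    show |(∑ j, cc (eV j) * X σ (eV j) + 0) - _| ≤ _
    rw [add_zero, h3]
    exact h1 σ
  · obtain ⟨σ₀, hσ₀⟩ := Finite.exists_min (fun σ : Equiv.Perm (Fin n) => tlen P σ)
    refine ⟨σ₀, ?_⟩
    set m := tlen P σ₀ - δ with hm
    have hlow : ∀ i, ∀ z ∈ Q i, m ≤ ∑ j, c j * z j + c₀ := by
      intro i z hz
      obtain ⟨σ, hσ⟩ := h2 i z hz
      have := hσ₀ σ
      linarith
    obtain ⟨Y, hY⟩ : ∃ Y : Fin N × Option (Fin d) → ℝ, y = fun j => Y (eV j) :=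
      ⟨fun v => y (eV.symm v), by ext j; simp⟩
    rw [hY, hmem] at hy
    obtain ⟨hy1, hy2, hy3⟩ := hy
    have h4 : ∑ j, cc (eV j) * y j = ∑ i, (∑ j, c j * Y (i, some j) + c₀ * Y (i, none)) := by
      rw [hY]
      show ∑ j, cc (eV j) * Y (eV j) = _
      rw [Equiv.sum_comp eV (fun v => cc v * Y v), Fintype.sum_prod_type]
      refine Finset.sum_congr rfl fun i _ => ?_
      rw [Fintype.sum_option]
      simp only [cc]
      ring
    have h5 : ∀ i, m * Y (i, none) ≤ ∑ j, c j * Y (i, some j) + c₀ * Y (i, none) := by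
      intro i
      obtain ⟨hpsd, hl⟩ := hy1 i
      rcases hl.lt_or_eq with hpos | hzero
      · -- positive weight
        have hz : (fun j => Y (i, some j) / Y (i, none)) ∈ Q i := by
          rw [hQ]
          constructor
          · have : B₀ i + ∑ j, (Y (i, some j) / Y (i, none)) • B i j =
                (Y (i, none))⁻¹ • (Y (i, none) • B₀ i + ∑ j, Y (i, some j) • B i j) := by
              rw [smul_add, smul_smul, inv_mul_cancel₀ hpos.ne', one_smul, Finset.smul_sum]
              congr 1
              refine Finset.sum_congr rfl fun j _ => ?_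
              rw [smul_smul]
              congr 1
              field_simp
            rw [this]
            exact hpsd.smul (inv_nonneg.2 hl)
          · intro k
            have h6 := hy2 i k
            have : ∑ j, E i k j * (Y (i, some j) / Y (i, none)) =
                (∑ j, E i k j * Y (i, some j)) / Y (i, none) := by
              rw [Finset.sum_div]
              refine Finset.sum_congr rfl fun j _ => ?_
              ring
            rw [this, h6]
            field_simp
        have h7 := hlow i _ hz
        have h8 : ∑ j, c j * (Y (i, some j) / Y (i, none)) =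
            (∑ j, c j * Y (i, some j)) / Y (i, none) := by
          rw [Finset.sum_div]
          refine Finset.sum_congr rfl fun j _ => ?_
          ring
        rw [h8] at h7
        have h9 := mul_le_mul_of_nonneg_right h7 hl
        rw [add_mul, div_mul_cancel₀ _ hpos.ne'] at h9
        exact h9
      · -- recession direction
        rw [← hzero] at hpsd ⊢
        obtain ⟨q, hq⟩ := hne i
        have hqt : ∀ t : ℝ, 0 ≤ t → (fun j => q j + t * Y (i, some j)) ∈ Q i := by
          intro t ht
          have hq' := hq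
          rw [hQ] at hq' ⊢
          constructor
          · have : B₀ i + ∑ j, (q j + t * Y (i, some j)) • B i j =
                (B₀ i + ∑ j, q j • B i j) +
                t • ((0 : ℝ) • B₀ i + ∑ j, Y (i, some j) • B i j) := by
              rw [zero_smul, zero_add, Finset.smul_sum, add_assoc, ← Finset.sum_add_distrib]
              congr 1
              refine Finset.sum_congr rfl fun j _ => ?_
              rw [add_smul, smul_smul]
            rw [this]
            exact hq'.1.add (hpsd.smul ht)
          · intro k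
            have h6 := hy2 i k
            rw [← hzero, mul_zero] at h6
            have h7 := hq'.2 k
            have : ∑ j, E i k j * (q j + t * Y (i, some j)) =
                ∑ j, E i k j * q j + t * ∑ j, E i k j * Y (i, some j) := by
              rw [Finset.mul_sum, ← Finset.sum_add_distrib]
              refine Finset.sum_congr rfl fun j _ => ?_
              ring
            rw [this, h6, h7]
            ring
        have hval : ∀ t : ℝ, 0 ≤ t → m ≤ (∑ j, c j * q j + c₀) + t * ∑ j, c j * Y (i, some j) := by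
          intro t ht
          have h7 := hlow i _ (hqt t ht)
          have : ∑ j, c j * (q j + t * Y (i, some j)) =
              ∑ j, c j * q j + t * ∑ j, c j * Y (i, some j) := by
            rw [Finset.mul_sum, ← Finset.sum_add_distrib]
            refine Finset.sum_congr rfl fun j _ => ?_
            ring
          rw [this] at h7
          linarith
        have hnn : 0 ≤ ∑ j, c j * Y (i, some j) := by
          by_contra hneg
          push Not at hneg
          have h0 := hval 0 le_rfl
          have hb : 0 ≤ (∑ j, c j * q j + c₀) - m := by linarith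
          have h8 := hval (((∑ j, c j * q j + c₀) - m + 1) / (- ∑ j, c j * Y (i, some j)))
            (div_nonneg (by linarith) (by linarith))
          have h9 : ((∑ j, c j * q j + c₀) - m + 1) / (- ∑ j, c j * Y (i, some j)) *
              ∑ j, c j * Y (i, some j) = -((∑ j, c j * q j + c₀) - m + 1) := by
            rw [div_mul_eq_mul_div, div_eq_iff (by linarith)]
            ring
          rw [h9] at h8
          linarith
        linarith
    show m ≤ ∑ j, cc (eV j) * y j + 0
    rw [add_zero, h4]
    calc m = m * ∑ i, Y (i, none) := by rw [hy3, mul_one]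
      _ = ∑ i, m * Y (i, none) := by rw [Finset.mul_sum]
      _ ≤ _ := Finset.sum_le_sum fun i _ => h5 i

end Pool.Agent.Helper22.MI
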